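import Pool.Agent.Helper24.FF.Stmts

/-! Full list for MP_866009_co, module W1M: from two hubs, connector and path to the state. -/

set_option autoImplicit false

namespace Pool.Agent.Helper24.FF

open Pool.Agent.Helper64.CT Pool.Agent.Helper64.DT Pool.Agent.Helper64.FL
open Pool.Agent.Helper64.HG (Ovl Model Circ IC HellyCircle ChordModel)

theorem w1m_tb {m i k : ℕ} (h : tb m i = true) (hm : m < 2 ^ k) : i < k := by
  by_contra hc
  have h1 : m < 2 ^ i := hm.trans_le (Nat.pow_le_pow_right (by norm_num) (not_lt.1 hc))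
  have h2 : Nat.shiftRight m i = 0 := by
    change m >>> i = 0
    rw [Nat.shiftRight_eq_div_pow]
    exact Nat.div_eq_of_lt h1
  unfold tb at h
  rw [h2] at h
  revert h
  decide

theorem w1m_nd {V : Type} {G : SimpleGraph V} : ∀ {l : List V}, IPt G l → l.Nodup
  | [], _ => List.nodup_nil
  | a :: l, h => by
    obtain ⟨h1, _, _, h4⟩ := h
    exact List.nodup_cons.2 ⟨fun ha => h1 a ha rfl, w1m_nd h4⟩

theorem w1m_sep {V : Type} {G : SimpleGraph V} (z : V) (Y : List V) :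
    ∀ {X : List V}, IPt G (X ++ z :: Y) → ∀ x ∈ X, ∀ y ∈ Y, x ≠ y ∧ ¬ G.Adj x y
  | [], _, x, hx, _, _ => absurd hx (by simp)
  | a :: X, h, x, hx, y, hy => by
    obtain ⟨h1, _, h3, h4⟩ := h
    rcases List.mem_cons.1 hx with rfl | hx
    · refine ⟨h1 y (by simp [hy]), h3 y ?_⟩
      cases X with
      | nil => simpa using hy
      | cons b X => simp [hy]
    · exact w1m_sep z Y h4 x hx y hy

/-- assembly of a state from a list of vertices -/
theorem w1m_mk {V : Type} {G : SimpleGraph V} (s : Sk) (x0 : V) (l : List V)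
    (L : List (Seg × List V)) (El Dl : List (ℕ × ℕ)) (hn : s.n = l.length) (h32 : l.length ≤ 32)
    (nd : l.Nodup)
    (hE : ∀ i < 32, ∀ j < 32, eb s i j = true → (i, j) ∈ El ∨ (j, i) ∈ El)
    (hE' : ∀ x ∈ El, x.1 < l.length ∧ x.2 < l.length)
    (hEa : ∀ x ∈ El, G.Adj (l.getD x.1 x0) (l.getD x.2 x0))
    (hD : ∀ i < 32, ∀ j < 32, db s i j = true → (i, j) ∈ Dl ∨ (j, i) ∈ Dl)
    (hD' : ∀ x ∈ Dl, x.1 < l.length ∧ x.2 < l.length)
    (hDa : ∀ x ∈ Dl, ¬ G.Adj (l.getD x.1 x0) (l.getD x.2 x0))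
    (map : L.map Prod.fst = s.sg)
    (bnd : ∀ p ∈ L, p.1.u < s.n ∧ p.1.w < s.n ∧ p.1.u ≠ p.1.w)
    (pth : ∀ p ∈ L, IPt G (l.getD p.1.u x0 :: (p.2 ++ [l.getD p.1.w x0])))
    (dis : ∀ p ∈ L, ∀ x ∈ p.2, x ∉ l)
    (cln : ∀ p ∈ L, ∀ i, tb p.1.cl i = true → i < s.n ∧ i ≠ p.1.u ∧ i ≠ p.1.w ∧
      ∀ x ∈ p.2, ¬ G.Adj (l.getD i x0) x)
    (sep : L.Pairwise (fun p q => ∀ x ∈ p.2, ∀ y ∈ q.2, x ≠ y ∧ ¬ G.Adj x y)) :
    Mod G s (fun i => l.getD i x0) L where
  n32 := by omega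
  alive := fun i hi => hi
  inj := by
    intro i j hi hj hij
    rw [hn] at hi hj
    simp only [List.getD_eq_getElem _ _ hi, List.getD_eq_getElem _ _ hj] at hij
    exact (List.Nodup.getElem_inj_iff nd).1 hij
  adj := by
    intro i j hi hj h
    rcases hE i hi j hj h with h | h
    · have h1 := hE' _ h
      exact ⟨hn ▸ h1.1, hn ▸ h1.2, fun _ => hEa _ h⟩
    · have h1 := hE' _ h
      exact ⟨hn ▸ h1.2, hn ▸ h1.1, fun _ => (hEa _ h).symm⟩
  nad := by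
    intro i j hi hj h
    rcases hD i hi j hj h with h | h
    · have h1 := hD' _ h
      exact ⟨hn ▸ h1.1, hn ▸ h1.2, fun _ => hDa _ h⟩
    · have h1 := hD' _ h
      exact ⟨hn ▸ h1.2, hn ▸ h1.1, fun _ e => hDa _ h e.symm⟩
  map := map
  bnd := bnd
  pth := pth
  dis := by
    intro p hp x hx i hi e
    apply dis p hp x hx
    rw [hn] at hi
    rw [e]
    simp only [List.getD_eq_getElem _ _ hi]
    exact List.getElem_mem hi
  cln := cln
  sep := sep

def w1m_E7 : Bool → List (ℕ × ℕ)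
  | false => [(0, 2), (1, 2), (0, 3), (0, 4), (1, 4), (0, 5), (1, 5), (0, 6)]
  | true => [(0, 2), (1, 2), (0, 3), (0, 4), (1, 4), (0, 5), (1, 5), (1, 6)]

def w1m_D7 : Bool → List (ℕ × ℕ)
  | false => [(0, 1), (1, 3), (2, 3), (2, 4), (2, 5), (3, 5), (4, 5), (1, 6), (2, 6), (3, 6), (4, 6)]
  | true => [(0, 1), (1, 3), (2, 3), (2, 4), (2, 5), (3, 5), (4, 5), (0, 6), (2, 6), (3, 6), (4, 6)]

def w1m_E8 : Bool → List (ℕ × ℕ)
  | false => [(0, 2), (1, 3), (0, 4), (0, 5), (1, 5), (0, 6), (1, 6), (0, 7)]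
  | true => [(0, 2), (1, 3), (0, 4), (0, 5), (1, 5), (0, 6), (1, 6), (1, 7)]

def w1m_D8 : Bool → List (ℕ × ℕ)
  | false => [(0, 1), (1, 2), (0, 3), (1, 4), (2, 4), (3, 4), (2, 5), (3, 5), (2, 6), (3, 6),
      (4, 6), (5, 6), (1, 7), (2, 7), (3, 7), (4, 7), (5, 7)]
  | true => [(0, 1), (1, 2), (0, 3), (1, 4), (2, 4), (3, 4), (2, 5), (3, 5), (2, 6), (3, 6),
      (4, 6), (5, 6), (0, 7), (2, 7), (3, 7), (4, 7), (5, 7)]

def w1m_ck (m : ℕ) (l : List (ℕ × ℕ)) : Bool :=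
  (List.range 32).all fun i => (List.range 32).all fun j =>
    !(tb m (px i j)) || l.contains (i, j) || l.contains (j, i)

theorem w1m_ck_iff {m : ℕ} {l : List (ℕ × ℕ)} (h : w1m_ck m l = true) :
    ∀ i < 32, ∀ j < 32, tb m (px i j) = true → (i, j) ∈ l ∨ (j, i) ∈ l := by
  intro i hi j hj ht
  unfold w1m_ck at h
  rw [List.all_eq_true] at h
  have h1 := h i (List.mem_range.2 hi)
  rw [List.all_eq_true] at h1
  have h2 := h1 j (List.mem_range.2 hj)
  rw [ht] at h2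
  simpa using h2

theorem w1m_E7s : ∀ ab, w1m_ck (w1s ab false).e (w1m_E7 ab) = true
  | true => by decide +kernel
  | false => by decide +kernel

theorem w1m_D7s : ∀ ab, w1m_ck (w1s ab false).d (w1m_D7 ab) = true
  | true => by decide +kernel
  | false => by decide +kernel

theorem w1m_E8s : ∀ ab, w1m_ck (w1s ab true).e (w1m_E8 ab) = true
  | true => by decide +kernel
  | false => by decide +kernel

theorem w1m_D8s : ∀ ab, w1m_ck (w1s ab true).d (w1m_D8 ab) = true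
  | true => by decide +kernel
  | false => by decide +kernel

theorem w1m_sg7 : ∀ ab, (w1s ab false).sg = [⟨3, 4, 100⟩, ⟨4, 5, 76⟩, ⟨5, 6, 28⟩]
  | true => rfl
  | false => rfl

theorem w1m_sg8 : ∀ ab, (w1s ab true).sg =
    [⟨2, 3, 243⟩, ⟨4, 5, 204⟩, ⟨5, 6, 156⟩, ⟨6, 7, 60⟩]
  | true => rfl
  | false => rfl

theorem w1m_n7 : ∀ ab, (w1s ab false).n = 7
  | true => rfl
  | false => rfl

theorem w1m_n8 : ∀ ab, (w1s ab true).n = 8
  | true => rfl
  | false => rfl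

/-- bits of the masks -/
theorem w1m_cl {m : ℕ} {l : List ℕ} (hm : m < 2 ^ 8)
    (h : ((List.range 8).all fun i => !(tb m i) || l.contains i) = true) {i : ℕ}
    (hi : tb m i = true) : i ∈ l := by
  rw [List.all_eq_true] at h
  have h2 := h i (List.mem_range.2 (w1m_tb hi hm))
  rw [hi] at h2
  simpa using h2

/-- the part of the facts that concerns the path -/
structure w1m_PF {V : Type} (G : SimpleGraph V) (h k : V) (A B C : List V)
    (p r1 r2 q : V) : Prop where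
  iA : IPt G (p :: (A ++ [r1]))
  iB : IPt G (r1 :: (B ++ [r2]))
  iC : IPt G (r2 :: (C ++ [q]))
  nd : (h :: k :: (p :: (A ++ r1 :: (B ++ r2 :: (C ++ [q]))))).Nodup
  s1 : ∀ x ∈ p :: A, ∀ y ∈ B ++ r2 :: (C ++ [q]), x ≠ y ∧ ¬ G.Adj x y
  s2 : ∀ x ∈ p :: (A ++ r1 :: B), ∀ y ∈ C ++ [q], x ≠ y ∧ ¬ G.Adj x y
  r12 : ¬ G.Adj r1 r2
  nhk : ¬ G.Adj h k
  hp : G.Adj h p
  kp : ¬ G.Adj k p
  hr1 : G.Adj h r1
  kr1 : G.Adj k r1
  hr2 : G.Adj h r2
  kr2 : G.Adj k r2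

theorem w1m_pf {V : Type} {G : SimpleGraph V} (hdf : DF G) {h k : V} {D A B C : List V}
    {p r1 r2 q : V} (hc : W1c G h k D (p :: (A ++ r1 :: (B ++ r2 :: (C ++ [q])))))
    (hp : G.Adj h p) (kp : ¬ G.Adj k p) (hr1 : G.Adj h r1) (kr1 : G.Adj k r1)
    (hr2 : G.Adj h r2) (kr2 : G.Adj k r2) (hX : ST_IPX) :
    w1m_PF G h k A B C p r1 r2 q := by
  have iP := hc.iP
  have X1 := (hX V G).1
  have e1 : p :: (A ++ r1 :: (B ++ r2 :: (C ++ [q]))) =
      (p :: (A ++ [r1])) ++ (B ++ r2 :: (C ++ [q])) := by simp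
  have e2 : p :: (A ++ r1 :: (B ++ r2 :: (C ++ [q]))) =
      (p :: A) ++ ((r1 :: (B ++ [r2])) ++ (C ++ [q])) := by simp
  have e3 : p :: (A ++ r1 :: (B ++ r2 :: (C ++ [q]))) =
      (p :: (A ++ r1 :: B)) ++ (r2 :: (C ++ [q])) := by simp
  have nP := w1m_nd iP
  have ne : r1 ≠ r2 := by
    intro e
    rw [e] at nP
    simp [List.nodup_append] at nP
  refine ⟨(X1 _ _ (e1 ▸ iP)).1, (X1 _ _ (X1 _ _ (e2 ▸ iP)).2.1).1, (X1 _ _ (e3 ▸ iP)).2.1, ?_, ?_,
    ?_, ?_, hc.nhk, hp, kp, hr1, kr1, hr2, kr2⟩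
  · rw [List.nodup_cons, List.nodup_cons]
    refine ⟨?_, hc.kP, nP⟩
    intro hm
    rcases List.mem_cons.1 hm with e | hm
    · exact hc.hk e
    · exact hc.hP hm
  · exact w1m_sep r1 _ (X := p :: A) iP
  · exact w1m_sep r2 _ (X := p :: (A ++ r1 :: B)) (e3 ▸ iP)
  · intro ha
    exact hc.nhk (hdf r1 r2 h k ha hr1.symm hr2.symm kr1.symm kr2.symm hc.hk)

theorem w1m_7 {V : Type} {G : SimpleGraph V} {h k d : V} {A B C : List V} {p r1 r2 q : V}
    (ab : Bool) (F : w1m_PF G h k A B C p r1 r2 q) (hd : G.Adj h d) (kd : G.Adj k d)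
    (dP : ∀ y ∈ p :: (A ++ r1 :: (B ++ r2 :: (C ++ [q]))), d ≠ y ∧ ¬ G.Adj d y)
    (hq : ab = false → G.Adj h q ∧ ¬ G.Adj k q) (kq : ab = true → ¬ G.Adj h q ∧ G.Adj k q) :
    Mod G (w1s ab false) (fun i => [h, k, d, p, r1, r2, q].getD i h)
      [(⟨3, 4, 100⟩, A), (⟨4, 5, 76⟩, B), (⟨5, 6, 28⟩, C)] := by
  have nA := w1m_nd F.iA
  have nB := w1m_nd F.iB
  have nC := w1m_nd F.iC
  simp only [List.nodup_cons, List.nodup_append, List.mem_append, List.mem_singleton] at nA nB nC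
  have dA : ∀ x ∈ A, d ≠ x ∧ ¬ G.Adj d x := fun x hx => dP x (by simp [hx])
  have dB : ∀ x ∈ B, d ≠ x ∧ ¬ G.Adj d x := fun x hx => dP x (by simp [hx])
  have dC : ∀ x ∈ C, d ≠ x ∧ ¬ G.Adj d x := fun x hx => dP x (by simp [hx])
  have dp := dP p (by simp)
  have dr1 := dP r1 (by simp)
  have dr2 := dP r2 (by simp)
  have dq := dP q (by simp)
  have s1A : ∀ x ∈ A, ∀ y ∈ B, x ≠ y ∧ ¬ G.Adj x y := fun x hx y hy =>
    F.s1 x (by simp [hx]) y (by simp [hy])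
  have s2A : ∀ x ∈ A, ∀ y ∈ C, x ≠ y ∧ ¬ G.Adj x y := fun x hx y hy =>
    F.s1 x (by simp [hx]) y (by simp [hy])
  have s3A : ∀ x ∈ A, x ≠ r2 ∧ ¬ G.Adj x r2 := fun x hx => F.s1 x (by simp [hx]) r2 (by simp)
  have s4A : ∀ x ∈ A, x ≠ q ∧ ¬ G.Adj x q := fun x hx => F.s1 x (by simp [hx]) q (by simp)
  have s1p : ∀ y ∈ B, p ≠ y ∧ ¬ G.Adj p y := fun y hy => F.s1 p (by simp) y (by simp [hy])
  have s2p : ∀ y ∈ C, p ≠ y ∧ ¬ G.Adj p y := fun y hy => F.s1 p (by simp) y (by simp [hy])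
  have s3p := F.s1 p (by simp) r2 (by simp)
  have s4p := F.s1 p (by simp) q (by simp)
  have s1B : ∀ x ∈ B, ∀ y ∈ C, x ≠ y ∧ ¬ G.Adj x y := fun x hx y hy =>
    F.s2 x (by simp [hx]) y (by simp [hy])
  have s2B : ∀ x ∈ B, x ≠ q ∧ ¬ G.Adj x q := fun x hx => F.s2 x (by simp [hx]) q (by simp)
  have s1r : ∀ y ∈ C, r1 ≠ y ∧ ¬ G.Adj r1 y := fun y hy => F.s2 r1 (by simp) y (by simp [hy])
  have s2r := F.s2 r1 (by simp) q (by simp)
  have n1 : p ∉ A := fun e => nA.1 (Or.inl e)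
  have n2 : p ≠ r1 := fun e => nA.1 (Or.inr e)
  have n3 : r1 ∉ A := fun e => nA.2.2.2 r1 e r1 rfl rfl
  have n4 : r1 ∉ B := fun e => nB.1 (Or.inl e)
  have n5 : r1 ≠ r2 := fun e => nB.1 (Or.inr e)
  have n6 : r2 ∉ B := fun e => nB.2.2.2 r2 e r2 rfl rfl
  have n7 : r2 ∉ C := fun e => nC.1 (Or.inl e)
  have n8 : r2 ≠ q := fun e => nC.1 (Or.inr e)
  have n9 : q ∉ C := fun e => nC.2.2.2 q e q rfl rfl
  have nd := F.nd
  rw [List.nodup_cons, List.nodup_cons] at nd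
  have hk : h ≠ k := fun e => nd.1 (by simp [e])
  have hX : ∀ x ∈ p :: (A ++ r1 :: (B ++ r2 :: (C ++ [q]))), h ≠ x := fun x hx e =>
    nd.1 (List.mem_cons_of_mem _ (e ▸ hx))
  have kX : ∀ x ∈ p :: (A ++ r1 :: (B ++ r2 :: (C ++ [q]))), k ≠ x := fun x hx e =>
    nd.2.1 (e ▸ hx)
  have hp := hX p (by simp)
  have hr1 := hX r1 (by simp)
  have hr2 := hX r2 (by simp)
  have hq' := hX q (by simp)
  have kp := kX p (by simp)
  have kr1 := kX r1 (by simp)
  have kr2 := kX r2 (by simp)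
  have kq' := kX q (by simp)
  have hA : ∀ x ∈ A, h ≠ x := fun x hx => hX x (by simp [hx])
  have hB : ∀ x ∈ B, h ≠ x := fun x hx => hX x (by simp [hx])
  have hC : ∀ x ∈ C, h ≠ x := fun x hx => hX x (by simp [hx])
  have kA : ∀ x ∈ A, k ≠ x := fun x hx => kX x (by simp [hx])
  have kB : ∀ x ∈ B, k ≠ x := fun x hx => kX x (by simp [hx])
  have kC : ∀ x ∈ C, k ≠ x := fun x hx => kX x (by simp [hx])
  refine w1m_mk _ h _ _ (w1m_E7 ab) (w1m_D7 ab) (w1m_n7 ab) (by simp) ?_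
    (w1m_ck_iff (w1m_E7s ab)) ?_ ?_ (w1m_ck_iff (w1m_D7s ab)) ?_ ?_ ?_ ?_ ?_ ?_ ?_ ?_
  · have hd' := hd.ne
    have kd' := kd.ne
    simp only [List.nodup_cons, List.mem_cons, List.not_mem_nil, or_false, not_or,
      List.nodup_nil, and_true, not_false_eq_true]
    exact ⟨⟨hk, hd', hp, hr1, hr2, hq'⟩, ⟨kd', kp, kr1, kr2, kq'⟩, ⟨dp.1, dr1.1, dr2.1, dq.1⟩,
      ⟨n2, s3p.1, s4p.1⟩, ⟨n5, s2r.1⟩, n8⟩
  · cases ab <;> simp [w1m_E7, w1m_D7, w1m_E8, w1m_D8]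
  · cases ab
    · simp only [w1m_E7, List.forall_mem_cons, List.getD_cons_zero, List.getD_cons_succ]
      exact ⟨hd, kd, F.hp, F.hr1, F.kr1, F.hr2, F.kr2, (hq rfl).1, by simp⟩
    · simp only [w1m_E7, List.forall_mem_cons, List.getD_cons_zero, List.getD_cons_succ]
      exact ⟨hd, kd, F.hp, F.hr1, F.kr1, F.hr2, F.kr2, (kq rfl).2, by simp⟩
  · cases ab <;> simp [w1m_E7, w1m_D7, w1m_E8, w1m_D8]
  · cases ab
    · simp only [w1m_D7, List.forall_mem_cons, List.getD_cons_zero, List.getD_cons_succ]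
      exact ⟨F.nhk, F.kp, dp.2, dr1.2, dr2.2, s3p.2, F.r12, (hq rfl).2, dq.2, s4p.2, s2r.2,
        by simp⟩
    · simp only [w1m_D7, List.forall_mem_cons, List.getD_cons_zero, List.getD_cons_succ]
      exact ⟨F.nhk, F.kp, dp.2, dr1.2, dr2.2, s3p.2, F.r12, (kq rfl).1, dq.2, s4p.2, s2r.2,
        by simp⟩
  · rw [w1m_sg7]
    rfl
  · rw [w1m_n7]
    simp
  · simp only [List.forall_mem_cons, List.getD_cons_zero, List.getD_cons_succ]
    exact ⟨F.iA, F.iB, F.iC, by simp⟩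
  · simp only [List.forall_mem_cons]
    simp only [List.mem_cons, List.not_mem_nil, or_false, not_or]
    refine ⟨fun x hx => ⟨(hA x hx).symm, (kA x hx).symm, (dA x hx).1.symm, fun e => n1 (e ▸ hx),
      fun e => n3 (e ▸ hx), (s3A x hx).1, (s4A x hx).1⟩, fun x hx => ⟨(hB x hx).symm,
      (kB x hx).symm, (dB x hx).1.symm, (s1p x hx).1.symm, fun e => n4 (e ▸ hx),
      fun e => n6 (e ▸ hx), (s2B x hx).1⟩, fun x hx => ⟨(hC x hx).symm, (kC x hx).symm,
      (dC x hx).1.symm, (s2p x hx).1.symm, (s1r x hx).1.symm, fun e => n7 (e ▸ hx),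
      fun e => n9 (e ▸ hx)⟩, by simp⟩
  · rw [w1m_n7]
    simp only [List.forall_mem_cons]
    refine ⟨?_, ?_, ?_, by simp⟩
    · intro i hi
      have h1 : i ∈ [2, 5, 6] := w1m_cl (by norm_num) (by decide +kernel) hi
      simp only [List.mem_cons, List.not_mem_nil, or_false] at h1
      rcases h1 with rfl | rfl | rfl
      · exact ⟨by norm_num, by norm_num, by norm_num, fun x hx => (dA x hx).2⟩
      · exact ⟨by norm_num, by norm_num, by norm_num, fun x hx e => (s3A x hx).2 e.symm⟩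
      · exact ⟨by norm_num, by norm_num, by norm_num, fun x hx e => (s4A x hx).2 e.symm⟩
    · intro i hi
      have h1 : i ∈ [2, 3, 6] := w1m_cl (by norm_num) (by decide +kernel) hi
      simp only [List.mem_cons, List.not_mem_nil, or_false] at h1
      rcases h1 with rfl | rfl | rfl
      · exact ⟨by norm_num, by norm_num, by norm_num, fun x hx => (dB x hx).2⟩
      · exact ⟨by norm_num, by norm_num, by norm_num, fun x hx => (s1p x hx).2⟩
      · exact ⟨by norm_num, by norm_num, by norm_num, fun x hx e => (s2B x hx).2 e.symm⟩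
    · intro i hi
      have h1 : i ∈ [2, 3, 4] := w1m_cl (by norm_num) (by decide +kernel) hi
      simp only [List.mem_cons, List.not_mem_nil, or_false] at h1
      rcases h1 with rfl | rfl | rfl
      · exact ⟨by norm_num, by norm_num, by norm_num, fun x hx => (dC x hx).2⟩
      · exact ⟨by norm_num, by norm_num, by norm_num, fun x hx => (s2p x hx).2⟩
      · exact ⟨by norm_num, by norm_num, by norm_num, fun x hx => (s1r x hx).2⟩
  · simp only [List.pairwise_cons, List.forall_mem_cons]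
    exact ⟨⟨s1A, s2A, by simp⟩, ⟨s1B, by simp⟩, by simp, by simp⟩

theorem w1m_8 {V : Type} {G : SimpleGraph V} {h k d e : V} {M A B C : List V} {p r1 r2 q : V}
    (ab : Bool) (F : w1m_PF G h k A B C p r1 r2 q) (iD : IPt G (d :: (M ++ [e])))
    (hdD : ∀ x ∈ d :: (M ++ [e]), h ≠ x ∧ (G.Adj h x ↔ d = x))
    (keD : ∀ x ∈ d :: (M ++ [e]), k ≠ x ∧ (G.Adj k x ↔ e = x))
    (DP : ∀ x ∈ d :: (M ++ [e]), ∀ y ∈ p :: (A ++ r1 :: (B ++ r2 :: (C ++ [q]))),
      x ≠ y ∧ ¬ G.Adj x y)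
    (hq : ab = false → G.Adj h q ∧ ¬ G.Adj k q) (kq : ab = true → ¬ G.Adj h q ∧ G.Adj k q) :
    Mod G (w1s ab true) (fun i => [h, k, d, e, p, r1, r2, q].getD i h)
      [(⟨2, 3, 243⟩, M), (⟨4, 5, 204⟩, A), (⟨5, 6, 156⟩, B), (⟨6, 7, 60⟩, C)] := by
  have nA := w1m_nd F.iA
  have nB := w1m_nd F.iB
  have nC := w1m_nd F.iC
  have nD := w1m_nd iD
  simp only [List.nodup_cons, List.nodup_append, List.mem_append, List.mem_singleton]
    at nA nB nC nD
  have dP := DP d (by simp)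
  have eP := DP e (by simp)
  have MP : ∀ x ∈ M, _ := fun x hx => DP x (by simp [hx])
  have m1 : d ∉ M := fun e => nD.1 (Or.inl e)
  have m2 : d ≠ e := fun e => nD.1 (Or.inr e)
  have m3 : e ∉ M := fun h => nD.2.2.2 e h e rfl rfl
  have s1A : ∀ x ∈ A, ∀ y ∈ B, x ≠ y ∧ ¬ G.Adj x y := fun x hx y hy =>
    F.s1 x (by simp [hx]) y (by simp [hy])
  have s2A : ∀ x ∈ A, ∀ y ∈ C, x ≠ y ∧ ¬ G.Adj x y := fun x hx y hy =>
    F.s1 x (by simp [hx]) y (by simp [hy])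
  have s3A : ∀ x ∈ A, x ≠ r2 ∧ ¬ G.Adj x r2 := fun x hx => F.s1 x (by simp [hx]) r2 (by simp)
  have s4A : ∀ x ∈ A, x ≠ q ∧ ¬ G.Adj x q := fun x hx => F.s1 x (by simp [hx]) q (by simp)
  have s1p : ∀ y ∈ B, p ≠ y ∧ ¬ G.Adj p y := fun y hy => F.s1 p (by simp) y (by simp [hy])
  have s2p : ∀ y ∈ C, p ≠ y ∧ ¬ G.Adj p y := fun y hy => F.s1 p (by simp) y (by simp [hy])
  have s3p := F.s1 p (by simp) r2 (by simp)
  have s4p := F.s1 p (by simp) q (by simp)
  have s1B : ∀ x ∈ B, ∀ y ∈ C, x ≠ y ∧ ¬ G.Adj x y := fun x hx y hy =>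
    F.s2 x (by simp [hx]) y (by simp [hy])
  have s2B : ∀ x ∈ B, x ≠ q ∧ ¬ G.Adj x q := fun x hx => F.s2 x (by simp [hx]) q (by simp)
  have s1r : ∀ y ∈ C, r1 ≠ y ∧ ¬ G.Adj r1 y := fun y hy => F.s2 r1 (by simp) y (by simp [hy])
  have s2r := F.s2 r1 (by simp) q (by simp)
  have n1 : p ∉ A := fun e => nA.1 (Or.inl e)
  have n2 : p ≠ r1 := fun e => nA.1 (Or.inr e)
  have n3 : r1 ∉ A := fun e => nA.2.2.2 r1 e r1 rfl rfl
  have n4 : r1 ∉ B := fun e => nB.1 (Or.inl e)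
  have n5 : r1 ≠ r2 := fun e => nB.1 (Or.inr e)
  have n6 : r2 ∉ B := fun e => nB.2.2.2 r2 e r2 rfl rfl
  have n7 : r2 ∉ C := fun e => nC.1 (Or.inl e)
  have n8 : r2 ≠ q := fun e => nC.1 (Or.inr e)
  have n9 : q ∉ C := fun e => nC.2.2.2 q e q rfl rfl
  have nd := F.nd
  rw [List.nodup_cons, List.nodup_cons] at nd
  have hk : h ≠ k := fun e => nd.1 (by simp [e])
  have hX : ∀ x ∈ p :: (A ++ r1 :: (B ++ r2 :: (C ++ [q]))), h ≠ x := fun x hx e =>
    nd.1 (List.mem_cons_of_mem _ (e ▸ hx))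
  have kX : ∀ x ∈ p :: (A ++ r1 :: (B ++ r2 :: (C ++ [q]))), k ≠ x := fun x hx e =>
    nd.2.1 (e ▸ hx)
  have hp := hX p (by simp)
  have hr1 := hX r1 (by simp)
  have hr2 := hX r2 (by simp)
  have hq' := hX q (by simp)
  have kp := kX p (by simp)
  have kr1 := kX r1 (by simp)
  have kr2 := kX r2 (by simp)
  have kq' := kX q (by simp)
  have hA : ∀ x ∈ A, h ≠ x := fun x hx => hX x (by simp [hx])
  have hB : ∀ x ∈ B, h ≠ x := fun x hx => hX x (by simp [hx])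
  have hC : ∀ x ∈ C, h ≠ x := fun x hx => hX x (by simp [hx])
  have kA : ∀ x ∈ A, k ≠ x := fun x hx => kX x (by simp [hx])
  have kB : ∀ x ∈ B, k ≠ x := fun x hx => kX x (by simp [hx])
  have kC : ∀ x ∈ C, k ≠ x := fun x hx => kX x (by simp [hx])
  have hd := hdD d (by simp)
  have he := hdD e (by simp)
  have kd := keD d (by simp)
  have ke := keD e (by simp)
  have hM : ∀ x ∈ M, h ≠ x ∧ ¬ G.Adj h x := by
    intro x hx
    have h1 := hdD x (by simp [hx])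
    exact ⟨h1.1, fun h2 => m1 ((h1.2.1 h2).symm ▸ hx)⟩
  have kM : ∀ x ∈ M, k ≠ x ∧ ¬ G.Adj k x := by
    intro x hx
    have h1 := keD x (by simp [hx])
    exact ⟨h1.1, fun h2 => m3 ((h1.2.1 h2).symm ▸ hx)⟩
  have dA : ∀ x ∈ A, d ≠ x ∧ ¬ G.Adj d x := fun x hx => dP x (by simp [hx])
  have dB : ∀ x ∈ B, d ≠ x ∧ ¬ G.Adj d x := fun x hx => dP x (by simp [hx])
  have dC : ∀ x ∈ C, d ≠ x ∧ ¬ G.Adj d x := fun x hx => dP x (by simp [hx])
  have eA : ∀ x ∈ A, e ≠ x ∧ ¬ G.Adj e x := fun x hx => eP x (by simp [hx])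
  have eB : ∀ x ∈ B, e ≠ x ∧ ¬ G.Adj e x := fun x hx => eP x (by simp [hx])
  have eC : ∀ x ∈ C, e ≠ x ∧ ¬ G.Adj e x := fun x hx => eP x (by simp [hx])
  have dp := dP p (by simp)
  have dr1 := dP r1 (by simp)
  have dr2 := dP r2 (by simp)
  have dq := dP q (by simp)
  have ep := eP p (by simp)
  have er1 := eP r1 (by simp)
  have er2 := eP r2 (by simp)
  have eq := eP q (by simp)
  have Mp : ∀ x ∈ M, x ≠ p ∧ ¬ G.Adj x p := fun x hx => MP x hx p (by simp)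
  have Mr1 : ∀ x ∈ M, x ≠ r1 ∧ ¬ G.Adj x r1 := fun x hx => MP x hx r1 (by simp)
  have Mr2 : ∀ x ∈ M, x ≠ r2 ∧ ¬ G.Adj x r2 := fun x hx => MP x hx r2 (by simp)
  have Mq : ∀ x ∈ M, x ≠ q ∧ ¬ G.Adj x q := fun x hx => MP x hx q (by simp)
  refine w1m_mk _ h _ _ (w1m_E8 ab) (w1m_D8 ab) (w1m_n8 ab) (by simp) ?_
    (w1m_ck_iff (w1m_E8s ab)) ?_ ?_ (w1m_ck_iff (w1m_D8s ab)) ?_ ?_ ?_ ?_ ?_ ?_ ?_ ?_
  · simp only [List.nodup_cons, List.mem_cons, List.not_mem_nil, or_false, not_or,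
      List.nodup_nil, and_true, not_false_eq_true]
    exact ⟨⟨hk, hd.1, he.1, hp, hr1, hr2, hq'⟩, ⟨kd.1, ke.1, kp, kr1, kr2, kq'⟩,
      ⟨m2, dp.1, dr1.1, dr2.1, dq.1⟩, ⟨ep.1, er1.1, er2.1, eq.1⟩,
      ⟨n2, s3p.1, s4p.1⟩, ⟨n5, s2r.1⟩, n8⟩
  · cases ab <;> simp [w1m_E7, w1m_D7, w1m_E8, w1m_D8]
  · cases ab
    · simp only [w1m_E8, List.forall_mem_cons, List.getD_cons_zero, List.getD_cons_succ]
      exact ⟨hd.2.2 rfl, ke.2.2 rfl, F.hp, F.hr1, F.kr1, F.hr2, F.kr2, (hq rfl).1, by simp⟩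
    · simp only [w1m_E8, List.forall_mem_cons, List.getD_cons_zero, List.getD_cons_succ]
      exact ⟨hd.2.2 rfl, ke.2.2 rfl, F.hp, F.hr1, F.kr1, F.hr2, F.kr2, (kq rfl).2, by simp⟩
  · cases ab <;> simp [w1m_E7, w1m_D7, w1m_E8, w1m_D8]
  · cases ab
    · simp only [w1m_D8, List.forall_mem_cons, List.getD_cons_zero, List.getD_cons_succ]
      exact ⟨F.nhk, fun h => m2 (kd.2.1 h).symm, fun h => m2 (he.2.1 h), F.kp, dp.2, ep.2, dr1.2,
        er1.2, dr2.2, er2.2, s3p.2, F.r12, (hq rfl).2, dq.2, eq.2, s4p.2, s2r.2, by simp⟩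
    · simp only [w1m_D8, List.forall_mem_cons, List.getD_cons_zero, List.getD_cons_succ]
      exact ⟨F.nhk, fun h => m2 (kd.2.1 h).symm, fun h => m2 (he.2.1 h), F.kp, dp.2, ep.2, dr1.2,
        er1.2, dr2.2, er2.2, s3p.2, F.r12, (kq rfl).1, dq.2, eq.2, s4p.2, s2r.2, by simp⟩
  · rw [w1m_sg8]
    rfl
  · rw [w1m_n8]
    simp
  · simp only [List.forall_mem_cons, List.getD_cons_zero, List.getD_cons_succ]
    exact ⟨iD, F.iA, F.iB, F.iC, by simp⟩
  · simp only [List.forall_mem_cons]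
    simp only [List.mem_cons, List.not_mem_nil, or_false, not_or]
    refine ⟨fun x hx => ⟨(hM x hx).1.symm, (kM x hx).1.symm, fun e => m1 (e ▸ hx),
      fun e => m3 (e ▸ hx), (Mp x hx).1, (Mr1 x hx).1, (Mr2 x hx).1, (Mq x hx).1⟩,
      fun x hx => ⟨(hA x hx).symm, (kA x hx).symm, (dA x hx).1.symm, (eA x hx).1.symm,
      fun e => n1 (e ▸ hx), fun e => n3 (e ▸ hx), (s3A x hx).1, (s4A x hx).1⟩,
      fun x hx => ⟨(hB x hx).symm,
      (kB x hx).symm, (dB x hx).1.symm, (eB x hx).1.symm, (s1p x hx).1.symm, fun e => n4 (e ▸ hx),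
      fun e => n6 (e ▸ hx), (s2B x hx).1⟩, fun x hx => ⟨(hC x hx).symm, (kC x hx).symm,
      (dC x hx).1.symm, (eC x hx).1.symm, (s2p x hx).1.symm, (s1r x hx).1.symm,
      fun e => n7 (e ▸ hx), fun e => n9 (e ▸ hx)⟩, by simp⟩
  · rw [w1m_n8]
    simp only [List.forall_mem_cons]
    refine ⟨?_, ?_, ?_, ?_, by simp⟩
    · intro i hi
      have h1 : i ∈ [0, 1, 4, 5, 6, 7] := w1m_cl (by norm_num) (by decide +kernel) hi
      simp only [List.mem_cons, List.not_mem_nil, or_false] at h1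
      rcases h1 with rfl | rfl | rfl | rfl | rfl | rfl
      · exact ⟨by norm_num, by norm_num, by norm_num, fun x hx => (hM x hx).2⟩
      · exact ⟨by norm_num, by norm_num, by norm_num, fun x hx => (kM x hx).2⟩
      · exact ⟨by norm_num, by norm_num, by norm_num, fun x hx e => (Mp x hx).2 e.symm⟩
      · exact ⟨by norm_num, by norm_num, by norm_num, fun x hx e => (Mr1 x hx).2 e.symm⟩
      · exact ⟨by norm_num, by norm_num, by norm_num, fun x hx e => (Mr2 x hx).2 e.symm⟩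
      · exact ⟨by norm_num, by norm_num, by norm_num, fun x hx e => (Mq x hx).2 e.symm⟩
    · intro i hi
      have h1 : i ∈ [2, 3, 6, 7] := w1m_cl (by norm_num) (by decide +kernel) hi
      simp only [List.mem_cons, List.not_mem_nil, or_false] at h1
      rcases h1 with rfl | rfl | rfl | rfl
      · exact ⟨by norm_num, by norm_num, by norm_num, fun x hx => (dA x hx).2⟩
      · exact ⟨by norm_num, by norm_num, by norm_num, fun x hx => (eA x hx).2⟩
      · exact ⟨by norm_num, by norm_num, by norm_num, fun x hx e => (s3A x hx).2 e.symm⟩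
      · exact ⟨by norm_num, by norm_num, by norm_num, fun x hx e => (s4A x hx).2 e.symm⟩
    · intro i hi
      have h1 : i ∈ [2, 3, 4, 7] := w1m_cl (by norm_num) (by decide +kernel) hi
      simp only [List.mem_cons, List.not_mem_nil, or_false] at h1
      rcases h1 with rfl | rfl | rfl | rfl
      · exact ⟨by norm_num, by norm_num, by norm_num, fun x hx => (dB x hx).2⟩
      · exact ⟨by norm_num, by norm_num, by norm_num, fun x hx => (eB x hx).2⟩
      · exact ⟨by norm_num, by norm_num, by norm_num, fun x hx => (s1p x hx).2⟩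
      · exact ⟨by norm_num, by norm_num, by norm_num, fun x hx e => (s2B x hx).2 e.symm⟩
    · intro i hi
      have h1 : i ∈ [2, 3, 4, 5] := w1m_cl (by norm_num) (by decide +kernel) hi
      simp only [List.mem_cons, List.not_mem_nil, or_false] at h1
      rcases h1 with rfl | rfl | rfl | rfl
      · exact ⟨by norm_num, by norm_num, by norm_num, fun x hx => (dC x hx).2⟩
      · exact ⟨by norm_num, by norm_num, by norm_num, fun x hx => (eC x hx).2⟩
      · exact ⟨by norm_num, by norm_num, by norm_num, fun x hx => (s2p x hx).2⟩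
      · exact ⟨by norm_num, by norm_num, by norm_num, fun x hx => (s1r x hx).2⟩
  · simp only [List.pairwise_cons, List.forall_mem_cons]
    exact ⟨⟨fun x hx y hy => MP x hx y (by simp [hy]), fun x hx y hy => MP x hx y (by simp [hy]),
      fun x hx y hy => MP x hx y (by simp [hy]), by simp⟩, ⟨s1A, s2A, by simp⟩, ⟨s1B, by simp⟩,
      by simp, by simp⟩

theorem w1m_core (hX : ST_IPX) {V : Type} {G : SimpleGraph V} {h k : V} {D A B C : List V}
    {p r1 r2 q : V} (hdf : DF G)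
    (hc : W1c G h k D (p :: (A ++ r1 :: (B ++ r2 :: (C ++ [q])))))
    (hp : G.Adj h p) (hr1 : G.Adj h r1) (kr1 : G.Adj k r1)
    (hr2 : G.Adj h r2) (kr2 : G.Adj k r2) :
    ∃ (ab dl : Bool) (f : ℕ → V) (L : List (Seg × List V)), Mod G (w1s ab dl) f L ∧
      (∀ i, i < (w1s ab dl).n → f i ∈ ({h, k} ∪ LS D ∪
        LS (p :: (A ++ r1 :: (B ++ r2 :: (C ++ [q])))) : Set V)) ∧
      ∀ s ∈ L, ∀ x ∈ s.2, x ∈ ({h, k} ∪ LS D ∪
        LS (p :: (A ++ r1 :: (B ++ r2 :: (C ++ [q])))) : Set V) := by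
  have kp : ¬ G.Adj k p := by
    rcases hc.fst p (by simp) with h1 | h1
    · exact h1.2
    · exact absurd hp h1.1
  have F := w1m_pf hdf hc hp kp hr1 kr1 hr2 kr2 hX
  have hql : (p :: (A ++ r1 :: (B ++ r2 :: (C ++ [q])))).getLast? = some q := by
    have e1 : p :: (A ++ r1 :: (B ++ r2 :: (C ++ [q]))) =
      (p :: (A ++ r1 :: (B ++ r2 :: C))) ++ [q] := by simp
    rw [e1, List.getLast?_concat]
  obtain ⟨ab, hq, kq⟩ : ∃ ab : Bool, (ab = false → G.Adj h q ∧ ¬ G.Adj k q) ∧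
      (ab = true → ¬ G.Adj h q ∧ G.Adj k q) := by
    rcases hc.lst q (by rw [hql]; rfl) with h1 | h1
    · exact ⟨false, fun _ => h1, by simp⟩
    · exact ⟨true, by simp, fun _ => h1⟩
  have hD := hc.D0
  rcases D with _ | ⟨d, D'⟩
  · exact absurd rfl hD
  rcases List.eq_nil_or_concat D' with rfl | ⟨M, e, rfl⟩
  · have hd : G.Adj h d := (hc.aD d (by simp)).2 (by simp)
    have kd : G.Adj k d := (hc.bD d (by simp)).2 (by simp)
    refine ⟨ab, false, _, _, w1m_7 ab F hd kd (hc.DP d (by simp)) hq kq, ?_, ?_⟩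
    · intro i hi
      rw [w1m_n7] at hi
      interval_cases i <;> simp [LS]
    · simp only [List.forall_mem_cons]
      refine ⟨fun x hx => ?_, fun x hx => ?_, fun x hx => ?_, by simp⟩
      · simp [LS, hx]
      · simp [LS, hx]
      · simp [LS, hx]
  · rw [List.concat_eq_append] at hc ⊢
    have nD := w1m_nd hc.iD
    have hdD : ∀ x ∈ d :: (M ++ [e]), h ≠ x ∧ (G.Adj h x ↔ d = x) := by
      intro x hx
      refine ⟨fun e => hc.hD (e ▸ hx), ?_⟩
      rw [hc.aD x hx]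
      simp
    have keD : ∀ x ∈ d :: (M ++ [e]), k ≠ x ∧ (G.Adj k x ↔ e = x) := by
      intro x hx
      refine ⟨fun e => hc.kD (e ▸ hx), ?_⟩
      rw [hc.bD x hx, ← List.cons_append, List.getLast?_concat]
      simp
    refine ⟨ab, true, _, _, w1m_8 ab F hc.iD hdD keD hc.DP hq kq, ?_, ?_⟩
    · intro i hi
      rw [w1m_n8] at hi
      interval_cases i <;> simp [LS]
    · simp only [List.forall_mem_cons]
      refine ⟨fun x hx => ?_, fun x hx => ?_, fun x hx => ?_, fun x hx => ?_, by simp⟩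
      · simp [LS, hx]
      · simp [LS, hx]
      · simp [LS, hx]
      · simp [LS, hx]

theorem st_W1M (hX : ST_IPX) : ST_W1M := by
  intro V G h k D P hdf hc hh
  obtain ⟨r1, h1, r2, h2, hne, hr1, kr1, hr2, kr2⟩ := hc.rng
  rcases P with _ | ⟨p, P'⟩
  · simp at h1
  have hp : G.Adj h p := hh p (by simp)
  have kp : ¬ G.Adj k p := by
    rcases hc.fst p (by simp) with h1 | h1
    · exact h1.2
    · exact absurd hp h1.1
  have g1 : r1 ∈ P' := by
    rcases List.mem_cons.1 h1 with e | h1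
    · exact absurd (e ▸ kr1) kp
    · exact h1
  have g2 : r2 ∈ P' := by
    rcases List.mem_cons.1 h2 with e | h2
    · exact absurd (e ▸ kr2) kp
    · exact h2
  rcases List.eq_nil_or_concat P' with rfl | ⟨X, q, rfl⟩
  · simp at g1
  rw [List.concat_eq_append] at hc g1 g2 ⊢
  have hq : ¬ (G.Adj h q ∧ G.Adj k q) := by
    have hql : (p :: (X ++ [q])).getLast? = some q := by
      rw [← List.cons_append, List.getLast?_concat]
    rcases hc.lst q (by rw [hql]; rfl) with h1 | h1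
    · exact fun e => h1.2 e.2
    · exact fun e => h1.1 e.1
  have g1' : r1 ∈ X := by
    rcases List.mem_append.1 g1 with h | h
    · exact h
    · exact absurd ⟨List.mem_singleton.1 h ▸ hr1, List.mem_singleton.1 h ▸ kr1⟩ hq
  have g2' : r2 ∈ X := by
    rcases List.mem_append.1 g2 with h | h
    · exact h
    · exact absurd ⟨List.mem_singleton.1 h ▸ hr2, List.mem_singleton.1 h ▸ kr2⟩ hq
  obtain ⟨A, Y, rfl⟩ := List.append_of_mem g1'
  rcases List.mem_append.1 g2' with h3 | h3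
  · obtain ⟨A', B', rfl⟩ := List.append_of_mem h3
    have e1 : p :: (A' ++ r2 :: B' ++ r1 :: Y ++ [q]) =
        p :: (A' ++ r2 :: (B' ++ r1 :: (Y ++ [q]))) := by simp
    rw [e1] at hc ⊢
    exact w1m_core hX hdf hc hp hr2 kr2 hr1 kr1
  · rcases List.mem_cons.1 h3 with h3 | h3
    · exact absurd h3.symm hne
    obtain ⟨B, C, rfl⟩ := List.append_of_mem h3
    have e1 : p :: (A ++ r1 :: (B ++ r2 :: C) ++ [q]) =
        p :: (A ++ r1 :: (B ++ r2 :: (C ++ [q]))) := by simp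
    rw [e1] at hc ⊢
    exact w1m_core hX hdf hc hp hr1 kr1 hr2 kr2

end Pool.Agent.Helper24.FF
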